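import Pool.Agent.Q266.WN.Switch

set_option autoImplicit false

/-!
# Graphs with at least `n - 3` main eigenvalues

`T(G)` is the set of nonempty cliques of `G` ordered by inclusion.  Let `G` be a graph with
`n ≥ 3` vertices whose walk vectors span a space of dimension at least `n - 3`.  If every graph
obtained from `G` by switching with respect to a switching quadruple is isomorphic to `G` (in
particular if there is no such quadruple), then `T(G)` and `T` of the complement of `G` are
reconstructible.
-/

namespace Pool.Agent.Results.MP_552896_co.MainEigenvalues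

/-- The truncated clique lattices of `G` and `H` have the same deck of maximal filter deleted
subsets: some bijection `f` of the vertex sets is such that, for every vertex `v`, the nonempty
cliques of `G` avoiding `v` and the nonempty cliques of `H` avoiding `f v`, both ordered by
inclusion, are isomorphic ordered sets. -/
def SameDeck {V W : Type} (G : SimpleGraph V) (H : SimpleGraph W) : Prop :=
  ∃ f : V ≃ W, ∀ v : V,
    Nonempty ({s : Finset V // s.Nonempty ∧ G.IsClique (s : Set V) ∧ v ∉ s} ≃o
      {t : Finset W // t.Nonempty ∧ H.IsClique (t : Set W) ∧ f v ∉ t})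

/-- `T(G)` is reconstructible from its deck: every truncated clique lattice `T(H)` of a finite
graph `H` with the same deck is isomorphic to `T(G)`. -/
def Reconstructible {V : Type} (G : SimpleGraph V) : Prop :=
  ∀ (W : Type) [Fintype W] (H : SimpleGraph W), SameDeck G H →
    Nonempty ({s : Finset V // s.Nonempty ∧ G.IsClique (s : Set V)} ≃o
      {t : Finset W // t.Nonempty ∧ H.IsClique (t : Set W)})

/-- The number of walks of length `k` from `x` to `y`. -/
noncomputable def walks {V : Type} (G : SimpleGraph V) (k : ℕ) (x y : V) : ℕ :=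
  Nat.card {p : G.Walk x y // p.length = k}

/-- The walk vectors: the numbers of walks of length `k` which start at `x`. -/
noncomputable def walkVector {V : Type} [Fintype V] (G : SimpleGraph V) (k : ℕ) (x : V) : ℚ :=
  ((∑ y, walks G k x y : ℕ) : ℚ)

open Classical Finset in
/-- The neighbours of `x`. -/
noncomputable def nbhd {V : Type} [Fintype V] (G : SimpleGraph V) (x : V) : Finset V :=
  univ.filter fun y => G.Adj x y

open Classical Finset in
/-- A switching quadruple: pairwise disjoint sets `X`, `Y`, `Z`, `W` with `|X| = |Y| ≥ 2` and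
`|Z| = |W| ≥ 1` (`walkXY`, `walkZW` with `k = 0`), all edges between `X` and `W` and between `Y`
and `Z`, no edges between `X` and `Z` and between `Y` and `W`, such that
every vertex outside the four sets has equally many neighbours in `X` and in `Y`; the number of
neighbours in the own set exceeds the number of neighbours in the other set by the same integer
for all the vertices of `X` and `Y`; the total numbers of walks of every length starting in `X`
and in `Y` are equal, and so for `Z` and `W`; `X` and `Y` contain equally many vertices of every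
degree, and so do `Z` and `W`. -/
structure Quadruple {V : Type} [Fintype V] (G : SimpleGraph V) (X Y Z W : Finset V) : Prop where
  two : 2 ≤ X.card
  pos : 1 ≤ Z.card
  dXY : Disjoint X Y
  dZW : Disjoint Z W
  dXZ : Disjoint (X ∪ Y) (Z ∪ W)
  xz : ∀ x ∈ X, ∀ z ∈ Z, ¬ G.Adj x z
  xw : ∀ x ∈ X, ∀ w ∈ W, G.Adj x w
  yz : ∀ y ∈ Y, ∀ z ∈ Z, G.Adj y z
  yw : ∀ y ∈ Y, ∀ w ∈ W, ¬ G.Adj y w
  out : ∀ u, u ∉ X ∪ Y → u ∉ Z ∪ W →
    (X.filter fun x => G.Adj u x).card = (Y.filter fun y => G.Adj u y).card
  ins : ∃ a : ℤ,
    (∀ x ∈ X, ((X.filter fun u => G.Adj x u).card : ℤ) - (Y.filter fun u => G.Adj x u).card = a) ∧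
    (∀ y ∈ Y, ((Y.filter fun u => G.Adj y u).card : ℤ) - (X.filter fun u => G.Adj y u).card = a)
  walkXY : ∀ k, ∑ x ∈ X, ∑ u, walks G k x u = ∑ y ∈ Y, ∑ u, walks G k y u
  walkZW : ∀ k, ∑ z ∈ Z, ∑ u, walks G k z u = ∑ w ∈ W, ∑ u, walks G k w u
  degXY : ∀ d, (X.filter fun x => (nbhd G x).card = d).card =
    (Y.filter fun x => (nbhd G x).card = d).card
  degZW : ∀ d, (Z.filter fun x => (nbhd G x).card = d).card =
    (W.filter fun x => (nbhd G x).card = d).card

open Classical in
/-- The switched graph: adjacency is complemented between the sets `P` and `Q`. -/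
def switch {V : Type} (G : SimpleGraph V) (P Q : Finset V) : SimpleGraph V where
  Adj x y := (G.Adj x y ∧ ¬ ((x ∈ P ∧ y ∈ Q) ∨ (x ∈ Q ∧ y ∈ P))) ∨
    (¬ G.Adj x y ∧ x ≠ y ∧ ((x ∈ P ∧ y ∈ Q) ∨ (x ∈ Q ∧ y ∈ P)))
  symm := ⟨fun x y h => by
    rcases h with ⟨h1, h2⟩ | ⟨h1, h2, h3⟩
    · exact Or.inl ⟨h1.symm, fun h3 => h2 (by tauto)⟩
    · exact Or.inr ⟨fun h4 => h1 h4.symm, h2.symm, by tauto⟩⟩
  loopless := ⟨fun x h => by
    rcases h with ⟨h1, h2⟩ | ⟨h1, h2, h3⟩
    · exact h1.ne rfl
    · exact h2 rfl⟩

open Classical in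
/-- Let `G` be a graph with at least three vertices whose walk vectors span a space of dimension
at least `|V| - 3`. If, for every switching quadruple, the switched graph is isomorphic to `G`,
then `T(G)` and `T(Gᶜ)` are reconstructible. -/
theorem result {V : Type} [Fintype V] (G : SimpleGraph V) (hn : 3 ≤ Fintype.card V)
    (hr : Fintype.card V ≤ Module.finrank ℚ (Submodule.span ℚ (Set.range (walkVector G))) + 3)
    (hq : ∀ X Y Z W : Finset V, Quadruple G X Y Z W → ∃ σ : Equiv.Perm V, ∀ x y,
      (switch G (X ∪ Y) (Z ∪ W)).Adj (σ x) (σ y) ↔ G.Adj x y) :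
    Reconstructible G ∧ Reconstructible Gᶜ := by
  refine Pool.Agent.Q266.WN.main3 G hn hr fun X Y Z W h => ?_
  exact hq X Y Z W ⟨h.two, h.pos, h.dXY, h.dZW, h.dXZ, h.xz, h.xw, h.yz, h.yw, h.out, h.ins,
    h.walkXY, h.walkZW, h.degXY, h.degZW⟩

end Pool.Agent.Results.MP_552896_co.MainEigenvalues
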