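import Pool.Agent.Q295.TW.Main

set_option autoImplicit false

/-!
# Graphs with twins

`T(G)` is the set of nonempty cliques of `G` ordered by inclusion.  Two vertices are twins here if
they have the same closed neighbourhood; this is an equivalence relation.  If some class of `m ≥ 2`
twins is such that no class of `m - 1` twins has the same degree and is joined to it, or has degree
one less and is not joined to it, then `T(G)` and `T` of the complement of `G` are reconstructible
from their decks of maximal filter deleted subsets.

Proof.  Let `d j` be the number of adjacent pairs which are distinguished by exactly `j` vertices,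
minus the same number for a graph `H` with the same deck.  Counting in all cards gives
`(n - 2 - j) (d j) + (j + 1) (d (j + 1)) = 0`, so `|d j| = C(n - 2, j) |d 0|` and the sum of all
`|d j|` is `2 ^ (n - 2) |d 0|`; as there are at most `n ^ 2` ordered pairs, `d = 0` for `n ≥ 10`.  So
`G` and `H` have equally many pairs of twins.  If `v` belongs to a class of `m ≥ 2` twins of `G`,
then the deletion of `v` destroys `m - 1` pairs and creates none.  Hence `v` has in `H` exactly
`m - 1` twins, and they form in the common card at `v` a complete class of `m - 1` twins.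
-/

namespace Pool.Agent.Results.MP_552896_co.TwinClasses

/-- The truncated clique lattices of `G` and `H` have the same deck of maximal filter deleted
subsets: some bijection `f` of the vertex sets is such that, for every vertex `v`, the nonempty
cliques of `G` avoiding `v` and the nonempty cliques of `H` avoiding `f v`, both ordered by
inclusion, are isomorphic ordered sets. -/
def SameDeck {V W : Type} (G : SimpleGraph V) (H : SimpleGraph W) : Prop :=
  ∃ f : V ≃ W, ∀ v : V,
    Nonempty ({s : Finset V // s.Nonempty ∧ G.IsClique (s : Set V) ∧ v ∉ s} ≃o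
      {t : Finset W // t.Nonempty ∧ H.IsClique (t : Set W) ∧ f v ∉ t})

/-- `T(G)` is reconstructible from its deck: every truncated clique lattice `T(H)` of a finite
graph `H` with the same deck is isomorphic to `T(G)`. -/
def Reconstructible {V : Type} (G : SimpleGraph V) : Prop :=
  ∀ (W : Type) [Fintype W] (H : SimpleGraph W), SameDeck G H →
    Nonempty ({s : Finset V // s.Nonempty ∧ G.IsClique (s : Set V)} ≃o
      {t : Finset W // t.Nonempty ∧ H.IsClique (t : Set W)})

/-- `u` and `v` are twins: different vertices with the same closed neighbourhood. -/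
def Twin {V : Type} (G : SimpleGraph V) (u v : V) : Prop :=
  u ≠ v ∧ ∀ y, (y = u ∨ G.Adj y u) ↔ (y = v ∨ G.Adj y v)

/-- The number of twins of `v`. -/
noncomputable def twins {V : Type} (G : SimpleGraph V) (v : V) : ℕ := {u | Twin G u v}.ncard

/-- The degree of `v`. -/
noncomputable def deg {V : Type} (G : SimpleGraph V) (v : V) : ℕ := {u | G.Adj u v}.ncard

theorem twin_iff {V : Type} [Fintype V] (G : SimpleGraph V) (u v : V) :
    Twin G u v ↔ Pool.Agent.Q295.TW.TT G v u := by
  constructor
  · rintro ⟨h1, h2⟩
    have h3 : G.Adj v u := by
      rcases (h2 v).mpr (Or.inl rfl) with h | h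
      · exact absurd h.symm h1
      · exact h
    refine ⟨h3, ?_⟩
    rw [Finset.eq_empty_iff_forall_notMem]
    intro x hx
    rw [Pool.Agent.Q295.TW.mem_D] at hx
    obtain ⟨hxv, hxu, hx'⟩ := hx
    apply hx'
    have h4 := h2 x
    simp only [hxu, hxv, false_or] at h4
    exact h4.symm
  · intro h
    refine ⟨h.1.ne.symm, fun y => ?_⟩
    by_cases hyu : y = u
    · subst hyu
      simp [h.1.symm]
    · by_cases hyv : y = v
      · subst hyv
        simp [h.1]
      · simp only [hyu, hyv, false_or]
        exact (h.adj hyv hyu).symm

theorem twins_eq {V : Type} [Fintype V] (G : SimpleGraph V) (v : V) :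
    twins G v = Pool.Agent.Q295.TW.tw G v := by
  classical
  unfold twins Pool.Agent.Q295.TW.tw
  rw [← Set.ncard_coe_finset]
  congr 1
  ext u
  simp [twin_iff]

theorem deg_eq {V : Type} [Fintype V] (G : SimpleGraph V) (v : V) :
    deg G v = Pool.Agent.Q295.TW.dg G v := by
  classical
  unfold deg Pool.Agent.Q295.TW.dg
  rw [← Set.ncard_coe_finset]
  congr 1
  ext u
  simp [G.adj_comm]

/-- (1) Let `G` be a graph with at least ten vertices and `v` a vertex which has twins, such that
every vertex `u` with exactly one twin less than `v` satisfies: if `u` is adjacent to `v` then the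
degrees of `u` and `v` are different, and if not, then the degree of `u` is not the degree of `v`
minus one. Then `T(G)` and `T(Gᶜ)` are reconstructible.
(2) In particular this holds if some vertex has twins and no vertex has exactly one twin less,
(3) and if every vertex has a twin. -/
theorem result :
    (∀ (V : Type) [Fintype V] (G : SimpleGraph V), 10 ≤ Fintype.card V → ∀ v : V,
      1 ≤ twins G v →
      (∀ u, twins G u + 1 = twins G v →
        (G.Adj u v → deg G u ≠ deg G v) ∧ (¬ G.Adj u v → deg G u + 1 ≠ deg G v)) →
      Reconstructible G ∧ Reconstructible Gᶜ) ∧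
    (∀ (V : Type) [Fintype V] (G : SimpleGraph V), 10 ≤ Fintype.card V → ∀ v : V,
      1 ≤ twins G v → (∀ u, twins G u + 1 ≠ twins G v) →
      Reconstructible G ∧ Reconstructible Gᶜ) ∧
    (∀ (V : Type) [Fintype V] (G : SimpleGraph V), 10 ≤ Fintype.card V →
      (∀ v, ∃ u, Twin G u v) → Reconstructible G ∧ Reconstructible Gᶜ) := by
  have main : ∀ (V : Type) [Fintype V] (G : SimpleGraph V), 10 ≤ Fintype.card V → ∀ v : V,
      1 ≤ twins G v →
      (∀ u, twins G u + 1 = twins G v →
        (G.Adj u v → deg G u ≠ deg G v) ∧ (¬ G.Adj u v → deg G u + 1 ≠ deg G v)) →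
      Reconstructible G ∧ Reconstructible Gᶜ := by
    intro V _ G hn v hv h
    classical
    rw [twins_eq] at hv
    obtain ⟨v', hv'⟩ := Finset.card_pos.mp hv
    rw [Finset.mem_filter] at hv'
    have hc : ∀ u, Pool.Agent.Q295.TW.tw G u + 1 = Pool.Agent.Q295.TW.tw G v →
        (G.Adj u v → Pool.Agent.Q295.TW.dg G u ≠ Pool.Agent.Q295.TW.dg G v) ∧
        (¬ G.Adj u v → Pool.Agent.Q295.TW.dg G u + 1 ≠ Pool.Agent.Q295.TW.dg G v) := by
      intro u hu
      have := h u (by rw [twins_eq, twins_eq]; exact hu)
      rw [deg_eq, deg_eq] at this
      exact this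
    exact Pool.Agent.Q295.TW.final G hn hv'.2 hc
  refine ⟨main, fun V _ G hn v hv h => main V G hn v hv (fun u hu => absurd hu (h u)), ?_⟩
  intro V _ G hn h
  have hne : Nonempty V := Fintype.card_pos_iff.mp (by omega)
  obtain ⟨v, hv⟩ := Finite.exists_min (twins G)
  apply main V G hn v
  · obtain ⟨u, hu⟩ := h v
    exact (Set.ncard_pos (Set.toFinite _)).mpr ⟨u, hu⟩
  · intro u hu
    have := hv u
    omega

end Pool.Agent.Results.MP_552896_co.TwinClasses
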