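import Pool.Agent.Q295.VP.Main

set_option autoImplicit false

/-!
# The types of the vertices over all `k`-tuples of vertices are reconstructible

`T(G)` is the set of nonempty cliques of `G` ordered by inclusion.  A `k`-tuple `a` of different
vertices of `G` has a profile: the adjacencies inside `a`, and for each of the `2 ^ k` sets `T` of
indices the number `c T` of the vertices outside `a` whose neighbours in `a` are the `a i`, `i ∈ T`.
For fixed `k` and all large `n`, graphs with `n` vertices whose `T` have the same deck of maximal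
filter deleted subsets have equally many `k`-tuples of each profile.

Proof.  Let `D (z)` be the sum over all `c` of `d (c)` times the product of the `z_T ^ (c T)`, where
`d (c)` is the difference of the numbers of tuples with profile `c`.  Counting in the cards shows
that the derivative of `D` in the direction `(1, ..., 1)` vanishes, so `D (z) = D (z - 1/2)`; hence
`|D (z)| ≤ 2 n ^ k (√3 / 2) ^ (n - k)` if all `z_T` lie on the unit circle and have real part at
least `1/2`, and `|D (z)| ≤ 2 n ^ k` on the whole torus.  Put `z_T = x ^ (B ^ j)` with different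
`j < 2 ^ k` and `B = 6 (n + 1)`: this gives a polynomial in `x` with integer coefficients, the
coefficients being the numbers `d (c)`.  If it is not zero then its Mahler measure is at least one,
but the points `x` for which all powers have real part at least `1/2` have measure at least
`6 ^ (- 2 ^ k)`, a contradiction.  For one union `U` of types two variables suffice.
-/

namespace Pool.Agent.Results.MP_552896_co.VertexProfiles

open Pool.Agent.Q295.VP
open Pool.Agent.H234RC (Hypo)

/-- The truncated clique lattices of `G` and `H` have the same deck of maximal filter deleted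
subsets: some bijection `f` of the vertex sets is such that, for every vertex `v`, the nonempty
cliques of `G` avoiding `v` and the nonempty cliques of `H` avoiding `f v`, both ordered by
inclusion, are isomorphic ordered sets. -/
def SameDeck {V W : Type} (G : SimpleGraph V) (H : SimpleGraph W) : Prop :=
  ∃ f : V ≃ W, ∀ v : V,
    Nonempty ({s : Finset V // s.Nonempty ∧ G.IsClique (s : Set V) ∧ v ∉ s} ≃o
      {t : Finset W // t.Nonempty ∧ H.IsClique (t : Set W) ∧ f v ∉ t})

/-- `T(G)` is reconstructible from its deck: every truncated clique lattice `T(H)` of a finite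
graph `H` with the same deck is isomorphic to `T(G)`. -/
def Reconstructible {V : Type} (G : SimpleGraph V) : Prop :=
  ∀ (W : Type) [Fintype W] (H : SimpleGraph W), SameDeck G H →
    Nonempty ({s : Finset V // s.Nonempty ∧ G.IsClique (s : Set V)} ≃o
      {t : Finset W // t.Nonempty ∧ H.IsClique (t : Set W)})

/-- The number of the `k`-tuples `a` of different vertices with the adjacencies `F` such that, for
every set `T` of indices, exactly `c T` vertices outside `a` are adjacent to the `a i` with `i ∈ T`
and to no other members of `a`. -/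
noncomputable def profileCount {V : Type} (G : SimpleGraph V) (k : ℕ) (F : Fin k → Fin k → Prop)
    (c : Set (Fin k) → ℕ) : ℕ :=
  {a : Fin k → V | (Function.Injective a ∧ ∀ i j, G.Adj (a i) (a j) ↔ F i j) ∧
    ∀ T : Set (Fin k), {y | (∀ i, a i ≠ y) ∧ {i | G.Adj y (a i)} = T}.ncard = c T}.ncard

/-- The number of the `k`-tuples `a` of different vertices with the adjacencies `F` such that
exactly `j` vertices outside `a` have a type in `U`, that is, the set of the indices of their
neighbours in `a` belongs to `U`. -/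
noncomputable def unionCount {V : Type} (G : SimpleGraph V) (k : ℕ) (F : Fin k → Fin k → Prop)
    (U : Set (Set (Fin k))) (j : ℕ) : ℕ :=
  {a : Fin k → V | (Function.Injective a ∧ ∀ i j, G.Adj (a i) (a j) ↔ F i j) ∧
    {y | (∀ i, a i ≠ y) ∧ {i | G.Adj y (a i)} ∈ U}.ncard = j}.ncard

/-- `n` is large enough for `k`: `2 * 6 ^ (2 ^ k) * log (2 n ^ k) < (n - k) * log (4 / 3)`. -/
def Large (k n : ℕ) : Prop :=
  2 * 6 ^ (2 ^ k) * Real.log (2 * (n : ℝ) ^ k) < ((n - k : ℕ) : ℝ) * Real.log (4 / 3)

theorem profileCount_eq {V : Type} [Fintype V] (G : SimpleGraph V) (k : ℕ)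
    (F : Fin k → Fin k → Prop) (c : Set (Fin k) → ℕ) : profileCount G k F c = cnt G F c := by
  classical
  unfold profileCount cnt
  rw [← Set.ncard_coe_finset]
  congr 1
  ext a
  have h : ∀ T : Set (Fin k), prof G a T =
      {y | (∀ i, a i ≠ y) ∧ {i | G.Adj y (a i)} = T}.ncard := by
    intro T
    unfold prof
    rw [← Set.ncard_coe_finset]
    congr 1
    ext y
    simp [Out, ty]
  simp only [Set.mem_ofPred_eq, Finset.coe_filter, mem_Tup, h]

theorem unionCount_eq {V : Type} [Fintype V] (G : SimpleGraph V) (k : ℕ)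
    (F : Fin k → Fin k → Prop) (U : Set (Set (Fin k))) (j : ℕ) :
    unionCount G k F U j = cntU G F U j := by
  classical
  unfold unionCount cntU
  rw [← Set.ncard_coe_finset]
  congr 1
  ext a
  have h : profU G U a = {y | (∀ i, a i ≠ y) ∧ {i | G.Adj y (a i)} ∈ U}.ncard := by
    unfold profU
    rw [← Set.ncard_coe_finset]
    congr 1
    ext y
    simp [Out, ty]
  simp only [Set.mem_ofPred_eq, Finset.coe_filter, mem_Tup, h]

theorem inner_iso {V W : Type} (G : SimpleGraph V) (H : SimpleGraph W) (f : V ≃ W)
    (hf : ∀ x y, H.Adj (f x) (f y) ↔ G.Adj x y) {k : ℕ} (a : Fin k → V)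
    (P : Set (Fin k) → Prop) :
    {y | (∀ i, f (a i) ≠ y) ∧ P {i | H.Adj y (f (a i))}}.ncard =
      {y | (∀ i, a i ≠ y) ∧ P {i | G.Adj y (a i)}}.ncard := by
  rw [← Set.ncard_image_of_injective _ f.injective]
  congr 1
  ext y
  simp only [Set.mem_image, Set.mem_ofPred_eq]
  constructor
  · rintro ⟨h1, h2⟩
    refine ⟨f.symm y, ⟨fun i e => h1 i (by rw [e, f.apply_symm_apply]), ?_⟩, f.apply_symm_apply y⟩
    have : {i | G.Adj (f.symm y) (a i)} = {i | H.Adj y (f (a i))} := by
      ext i
      simp only [Set.mem_ofPred_eq]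
      rw [← hf, f.apply_symm_apply]
    rw [this]
    exact h2
  · rintro ⟨x, ⟨h1, h2⟩, rfl⟩
    refine ⟨fun i e => h1 i (f.injective e), ?_⟩
    have : {i | H.Adj (f x) (f (a i))} = {i | G.Adj x (a i)} := by
      ext i
      simp only [Set.mem_ofPred_eq]
      rw [hf]
    rw [this]
    exact h2

theorem outer_iso {V W : Type} (G : SimpleGraph V) (H : SimpleGraph W) (f : V ≃ W)
    (hf : ∀ x y, H.Adj (f x) (f y) ↔ G.Adj x y) {k : ℕ} (F : Fin k → Fin k → Prop)
    (P : (Fin k → V) → Prop) (Q : (Fin k → W) → Prop) (hPQ : ∀ a, Q (fun i => f (a i)) ↔ P a) :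
    {b : Fin k → W | (Function.Injective b ∧ ∀ i j, H.Adj (b i) (b j) ↔ F i j) ∧ Q b}.ncard =
      {a : Fin k → V | (Function.Injective a ∧ ∀ i j, G.Adj (a i) (a j) ↔ F i j) ∧ P a}.ncard := by
  have hinj : Function.Injective (fun (a : Fin k → V) => fun i => f (a i)) := by
    intro a b h
    funext i
    exact f.injective (congrFun h i)
  rw [← Set.ncard_image_of_injective _ hinj]
  congr 1
  ext b
  simp only [Set.mem_image, Set.mem_ofPred_eq]
  constructor
  · rintro ⟨⟨h1, h2⟩, h3⟩
    have hb : (fun i => f (f.symm (b i))) = b := by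
      funext i
      exact f.apply_symm_apply _
    refine ⟨fun i => f.symm (b i), ⟨⟨f.symm.injective.comp h1, fun i j => ?_⟩, ?_⟩, hb⟩
    · rw [← h2 i j, ← hf, f.apply_symm_apply, f.apply_symm_apply]
    · rw [← hPQ, hb]
      exact h3
  · rintro ⟨a, ⟨⟨h1, h2⟩, h3⟩, rfl⟩
    refine ⟨⟨f.injective.comp h1, fun i j => ?_⟩, (hPQ a).mpr h3⟩
    rw [hf]
    exact h2 i j

theorem profileCount_iso {V W : Type} (G : SimpleGraph V) (H : SimpleGraph W) (f : V ≃ W)
    (hf : ∀ x y, H.Adj (f x) (f y) ↔ G.Adj x y) (k : ℕ) (F : Fin k → Fin k → Prop)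
    (c : Set (Fin k) → ℕ) : profileCount H k F c = profileCount G k F c := by
  apply outer_iso G H f hf
  intro a
  have h : ∀ T : Set (Fin k), _ := fun T => inner_iso G H f hf a (fun S => S = T)
  constructor
  · intro h1 T
    rw [← h T]
    exact h1 T
  · intro h1 T
    rw [h T]
    exact h1 T

theorem unionCount_iso {V W : Type} (G : SimpleGraph V) (H : SimpleGraph W) (f : V ≃ W)
    (hf : ∀ x y, H.Adj (f x) (f y) ↔ G.Adj x y) (k : ℕ) (F : Fin k → Fin k → Prop)
    (U : Set (Set (Fin k))) (j : ℕ) : unionCount H k F U j = unionCount G k F U j := by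
  apply outer_iso G H f hf
  intro a
  have h := inner_iso G H f hf a (fun S => S ∈ U)
  rw [h]

theorem hypo_of_deck {V W : Type} [Fintype V] [Fintype W] (G : SimpleGraph V) (H : SimpleGraph W)
    (h : SameDeck G H) : ∃ (f : V ≃ W) (π : V → Equiv.Perm V), Hypo G (H.comap f) π := by
  classical
  obtain ⟨f, hf⟩ := h
  have h1 : ∀ v, ∃ σ : Equiv.Perm V, σ v = v ∧ ∀ x y, x ≠ v → y ≠ v →
      (H.Adj (f (σ x)) (f (σ y)) ↔ G.Adj x y) := by
    intro v
    obtain ⟨e, he⟩ := Pool.Agent.H234RC.card_iso G H v (f v) (hf v)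
    let g : {x : V // x ≠ v} ≃ {x : V // x ≠ v} :=
      e.trans ((f.symm.subtypeEquiv (fun y => by
        constructor
        · intro h h'
          apply h
          rw [← h', Equiv.apply_symm_apply]
        · intro h h'
          apply h
          rw [h', Equiv.symm_apply_apply])))
    have hg : ∀ x, f (g x : V) = (e x : W) := by
      intro x
      show f (f.symm (e x)) = _
      simp
    let σ : Equiv.Perm V := g.extendSubtype
    refine ⟨σ, ?_, ?_⟩
    · by_contra hne
      have : ¬ (¬ (σ v ≠ v)) := not_not.mpr hne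
      exact this (g.extendSubtype_not_mem v (fun h => h rfl))
    · intro x y hx hy
      have ex : σ x = g ⟨x, hx⟩ := g.extendSubtype_apply_of_mem x hx
      have ey : σ y = g ⟨y, hy⟩ := g.extendSubtype_apply_of_mem y hy
      rw [ex, ey, hg, hg]
      exact he _ _
  choose π hπ1 hπ2 using h1
  exact ⟨f, π, ⟨hπ1, fun v x y hx hy => hπ2 v x y hx hy⟩⟩

theorem pos_of_large {k n : ℕ} (h : Large k n) : 0 < n := by
  by_contra hn
  have h0 : n = 0 := by omega
  subst h0
  unfold Large at h
  simp only [Nat.zero_sub, Nat.cast_zero, zero_mul] at h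
  have h1 : (0 : ℝ) < 2 * 6 ^ (2 ^ k) := by positivity
  have h2 : 0 ≤ Real.log (2 * (0 : ℝ) ^ k) := by
    rcases Nat.eq_zero_or_pos k with hk | hk
    · subst hk
      simp only [pow_zero, mul_one]
      exact Real.log_nonneg (by norm_num)
    · rw [zero_pow hk.ne', mul_zero, Real.log_zero]
  have h3 := mul_nonneg h1.le h2
  linarith

theorem exists_large (k : ℕ) : ∃ n0, ∀ n, n0 ≤ n → Large k n := by
  have hc : (0 : ℝ) < Real.log (4 / 3) := Real.log_pos (by norm_num)
  have hA : (0 : ℝ) < 2 * 6 ^ (2 ^ k) := by positivity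
  set A : ℝ := 2 * 6 ^ (2 ^ k) with hAdef
  set δ : ℝ := Real.log (4 / 3) / (2 * A * (k + 1)) with hδ
  have hδpos : 0 < δ := by positivity
  have hlo := Real.isLittleO_log_id_atTop.bound hδpos
  have hev : ∀ᶠ n : ℕ in Filter.atTop, ‖Real.log (n : ℝ)‖ ≤ δ * ‖(id (n : ℝ))‖ :=
    tendsto_natCast_atTop_atTop.eventually hlo
  have hev2 : ∀ᶠ n : ℕ in Filter.atTop,
      2 * (A * Real.log 2 + k * Real.log (4 / 3) + 1) / Real.log (4 / 3) ≤ (n : ℝ) :=
    tendsto_natCast_atTop_atTop.eventually_ge_atTop _
  have hev3 : ∀ᶠ n : ℕ in Filter.atTop, k + 1 ≤ n := Filter.eventually_ge_atTop _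
  obtain ⟨n0, hn0⟩ := Filter.eventually_atTop.mp (hev.and (hev2.and hev3))
  refine ⟨n0, fun n hn => ?_⟩
  obtain ⟨h1, h2, h3⟩ := hn0 n hn
  have hnpos : (0 : ℝ) < n := by
    have : 0 < n := by omega
    exact_mod_cast this
  unfold Large
  rw [← hAdef]
  have h4 : Real.log (2 * (n : ℝ) ^ k) = Real.log 2 + k * Real.log n := by
    rw [Real.log_mul (by norm_num) (by positivity), Real.log_pow]
  have h5 : Real.log (n : ℝ) ≤ δ * n := by
    have := le_trans (le_abs_self _) h1
    simpa [abs_of_pos hnpos] using this
  have h6 : (k : ℝ) * Real.log n ≤ (k + 1) * (δ * n) := by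
    have hlogn : 0 ≤ Real.log (n : ℝ) := Real.log_natCast_nonneg n
    have hk : (0 : ℝ) ≤ k := Nat.cast_nonneg k
    nlinarith [mul_nonneg hk (mul_nonneg hδpos.le hnpos.le), mul_nonneg hδpos.le hnpos.le]
  have h7 : A * ((k + 1) * (δ * n)) = Real.log (4 / 3) * n / 2 := by
    rw [hδ]
    have hk1 : (0 : ℝ) < (k : ℝ) + 1 := by positivity
    field_simp
  have h8 : ((n - k : ℕ) : ℝ) = (n : ℝ) - k := by
    rw [Nat.cast_sub (by omega)]
  rw [h4, h8]
  rw [div_le_iff₀ hc] at h2
  have h9 : A * (k * Real.log n) ≤ A * ((k + 1) * (δ * n)) := mul_le_mul_of_nonneg_left h6 hA.le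
  rw [h7] at h9
  nlinarith

/-- Let `G` and `H` be finite graphs such that `T(G)` and `T(H)` have the same deck of maximal filter
deleted subsets, and let `n` be the number of vertices.
(1) If `n` is large enough for `k` then `G` and `H` have equally many `k`-tuples of each profile;
(2) this holds for every `k` if `n` is larger than some constant which depends only on `k`.
(3) If `2 n ^ k < 2 ^ (n - k)` then `G` and `H` have, for every `j` and every set `U` of types,
equally many `k`-tuples with given adjacencies and exactly `j` outside vertices with type in `U`.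
(4) If `n` is large enough for `k` and every graph on the same vertices with equally many `k`-tuples
of each profile is isomorphic to `G`, then `T(G)` is reconstructible. -/
theorem result :
    (∀ (k : ℕ) (V W : Type) [Fintype V] [Fintype W] (G : SimpleGraph V) (H : SimpleGraph W),
      SameDeck G H → Large k (Fintype.card V) →
      ∀ F c, profileCount G k F c = profileCount H k F c) ∧
    (∀ k : ℕ, ∃ n0, ∀ n, n0 ≤ n → Large k n) ∧
    (∀ (k : ℕ) (V W : Type) [Fintype V] [Fintype W] (G : SimpleGraph V) (H : SimpleGraph W),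
      SameDeck G H → 2 * Fintype.card V ^ k < 2 ^ (Fintype.card V - k) →
      ∀ F U j, unionCount G k F U j = unionCount H k F U j) ∧
    (∀ (k : ℕ) (V : Type) [Fintype V] (G : SimpleGraph V), Large k (Fintype.card V) →
      (∀ H : SimpleGraph V, (∀ F c, profileCount G k F c = profileCount H k F c) →
        Nonempty (G ≃g H)) → Reconstructible G) := by
  refine ⟨?_, exists_large, ?_, ?_⟩
  · intro k V W _ _ G H hd hL F c
    obtain ⟨f, π, hH⟩ := hypo_of_deck G H hd
    have h1 := cnt_eq hH F c (pos_of_large hL) hL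
    rw [← profileCount_eq, ← profileCount_eq] at h1
    rw [h1]
    exact (profileCount_iso (H.comap f) H f (fun x y => Iff.rfl) k F c).symm
  · intro k V W _ _ G H hd hL F U j
    obtain ⟨f, π, hH⟩ := hypo_of_deck G H hd
    have h1 := cntU_eq hH F U j hL
    rw [← unionCount_eq, ← unionCount_eq] at h1
    rw [h1]
    exact (unionCount_iso (H.comap f) H f (fun x y => Iff.rfl) k F U j).symm
  · intro k V _ G hL h W _ H hd
    obtain ⟨f, π, hH⟩ := hypo_of_deck G H hd
    obtain ⟨g⟩ := h (H.comap f) (fun F c => by
      rw [profileCount_eq, profileCount_eq]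
      exact cnt_eq hH F c (pos_of_large hL) hL)
    exact Pool.Agent.H234RC.whole_iso G H (g.toEquiv.trans f) (fun x y => g.map_rel_iff)

end Pool.Agent.Results.MP_552896_co.VertexProfiles
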