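import Pool.Agent.Q266.WN.Main1

set_option autoImplicit false

/-!
# Graphs with a card in which the walk numbers determine the deleted neighbourhood

`T(G)` is the set of nonempty cliques of `G` ordered by inclusion.  Let `G` have at least three
vertices and let `v` be a vertex.  If every set `B` of vertices of `G - v` which has the same walk
numbers and the same degrees in `G - v` as the neighbourhood of `v` is the image of this
neighbourhood under an automorphism of `G - v`, then `T(G)` and `T` of the complement are
reconstructible.  They are reconstructible too if the walk vectors of `G - v` span a space of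
codimension at most one and `G` has no balanced pair at `v`.
-/

namespace Pool.Agent.Results.MP_552896_co.WalkNumbers

/-- The truncated clique lattices of `G` and `H` have the same deck of maximal filter deleted
subsets: some bijection `f` of the vertex sets is such that, for every vertex `v`, the nonempty
cliques of `G` avoiding `v` and the nonempty cliques of `H` avoiding `f v`, both ordered by
inclusion, are isomorphic ordered sets. -/
def SameDeck {V W : Type} (G : SimpleGraph V) (H : SimpleGraph W) : Prop :=
  ∃ f : V ≃ W, ∀ v : V,
    Nonempty ({s : Finset V // s.Nonempty ∧ G.IsClique (s : Set V) ∧ v ∉ s} ≃o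
      {t : Finset W // t.Nonempty ∧ H.IsClique (t : Set W) ∧ f v ∉ t})

/-- `T(G)` is reconstructible from its deck: every truncated clique lattice `T(H)` of a finite
graph `H` with the same deck is isomorphic to `T(G)`. -/
def Reconstructible {V : Type} (G : SimpleGraph V) : Prop :=
  ∀ (W : Type) [Fintype W] (H : SimpleGraph W), SameDeck G H →
    Nonempty ({s : Finset V // s.Nonempty ∧ G.IsClique (s : Set V)} ≃o
      {t : Finset W // t.Nonempty ∧ H.IsClique (t : Set W)})

/-- The number of walks of length `k` from `x` to `y`. -/
noncomputable def walks {V : Type} (G : SimpleGraph V) (k : ℕ) (x y : V) : ℕ :=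
  Nat.card {p : G.Walk x y // p.length = k}

/-- The graph `G - v`; the vertex `v` is kept as an isolated vertex. -/
def del {V : Type} (G : SimpleGraph V) (v : V) : SimpleGraph V where
  Adj x y := G.Adj x y ∧ x ≠ v ∧ y ≠ v
  symm := ⟨fun _ _ h => ⟨h.1.symm, h.2.2, h.2.1⟩⟩
  loopless := ⟨fun _ h => h.1.ne rfl⟩

open Classical Finset in
/-- The neighbours of `x`. -/
noncomputable def nbhd {V : Type} [Fintype V] (G : SimpleGraph V) (x : V) : Finset V :=
  univ.filter fun y => G.Adj x y

open Classical Finset in
/-- `B` has the same numbers as the neighbourhood of `v` in `G - v`: for every `k` the same number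
of walks of length `k` of `G - v` which start in the set, the same number of walks of length `k`
of `G - v` with both ends in the set, and for every `d` the same number of vertices in the set
which have degree `d` in `G - v`. -/
structure SameNumbers {V : Type} [Fintype V] (G : SimpleGraph V) (v : V) (B : Finset V) :
    Prop where
  start : ∀ k, ∑ x ∈ B, ∑ y, walks (del G v) k x y = ∑ x ∈ nbhd G v, ∑ y, walks (del G v) k x y
  ends : ∀ k, ∑ x ∈ B, ∑ y ∈ B, walks (del G v) k x y =
    ∑ x ∈ nbhd G v, ∑ y ∈ nbhd G v, walks (del G v) k x y
  deg : ∀ d, (B.filter fun x => (nbhd (del G v) x).card = d).card =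
    ((nbhd G v).filter fun x => (nbhd (del G v) x).card = d).card

/-- The walk vectors of `G - v`: the numbers of walks of length `k` of `G - v` which start at `x`,
for the vertices `x` different from `v`. -/
noncomputable def walkVector {V : Type} [Fintype V] (G : SimpleGraph V) (v : V) (k : ℕ)
    (x : {x : V // x ≠ v}) : ℚ :=
  ((∑ y, walks (del G v) k x y : ℕ) : ℚ)

open Classical Finset in
/-- A balanced pair at `v`: a set `X` of at least two neighbours of `v` and a set `Y` of equally
many non-neighbours of `v`, with the same degrees in `G - v`, such that every vertex different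
from `v` outside `X` and `Y` has equally many neighbours in `X` and in `Y`, and such that the
number of neighbours in the own set exceeds the number of neighbours in the other set by the same
integer for all the vertices of `X` and `Y`. -/
structure Balanced {V : Type} [Fintype V] (G : SimpleGraph V) (v : V) (X Y : Finset V) :
    Prop where
  adj : ∀ x ∈ X, G.Adj v x
  nadj : ∀ y ∈ Y, y ≠ v ∧ ¬ G.Adj v y
  two : 2 ≤ X.card
  card : X.card = Y.card
  deg : ∀ d, (X.filter fun x => (nbhd (del G v) x).card = d).card =
    (Y.filter fun x => (nbhd (del G v) x).card = d).card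
  out : ∀ u, u ≠ v → u ∉ X → u ∉ Y →
    (X.filter fun x => G.Adj u x).card = (Y.filter fun y => G.Adj u y).card
  ins : ∃ a : ℤ,
    (∀ x ∈ X, ((X.filter fun u => G.Adj x u).card : ℤ) - (Y.filter fun u => G.Adj x u).card = a) ∧
    (∀ y ∈ Y, ((Y.filter fun u => G.Adj y u).card : ℤ) - (X.filter fun u => G.Adj y u).card = a)

/-- Let `G` be a graph with at least three vertices and `v` a vertex of `G`.
(1) If every set `B` of vertices of `G - v` with the same numbers as the neighbourhood of `v` is
mapped onto this neighbourhood by an automorphism of `G - v`, then `T(G)` and `T(Gᶜ)` are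
reconstructible.
(2) If the walk vectors of `G - v` span a space of dimension at least `|V| - 2` and `G` has no
balanced pair at `v`, then `T(G)` and `T(Gᶜ)` are reconstructible. -/
theorem result {V : Type} [Fintype V] (G : SimpleGraph V) (hn : 3 ≤ Fintype.card V) (v : V) :
    ((∀ B : Finset V, v ∉ B → SameNumbers G v B → ∃ σ : Equiv.Perm V, σ v = v ∧
        (∀ x y, (del G v).Adj (σ x) (σ y) ↔ (del G v).Adj x y) ∧ ∀ x, x ∈ B ↔ G.Adj v (σ x)) →
      Reconstructible G ∧ Reconstructible Gᶜ) ∧
    (Fintype.card V ≤ Module.finrank ℚ (Submodule.span ℚ (Set.range (walkVector G v))) + 2 →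
      (∀ X Y : Finset V, ¬ Balanced G v X Y) →
      Reconstructible G ∧ Reconstructible Gᶜ) := by
  refine ⟨fun h => Pool.Agent.Q266.WN.main1 G hn v fun B hv hB => ?_,
    fun hr hb => Pool.Agent.Q266.WN.main2 G hn v hr fun X Y hXY => hb X Y ?_⟩
  · exact h B hv ⟨hB.lin, hB.quad, hB.deg⟩
  · exact ⟨hXY.adj, hXY.nadj, hXY.two, hXY.card, hXY.deg, hXY.out, hXY.ins⟩

end Pool.Agent.Results.MP_552896_co.WalkNumbers
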